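import Pool.Agent.U325.PH.Fam

set_option autoImplicit false

/-!
# Sieves of any level and the parity of the number of prime factors of n^h + k

Here `c` stands for the `k` of the problem; the polynomial is `n ^ h`, or any other one, and its values may be
divided by `d` and rounded. Sieve methods bound the indicator function of the prime values of a sequence `f(1), f(2), ...` by a
combination `F(n)` of sieve functions, sums of weights over the divisors of `f(n)`. The theorem: for almost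
all `c ≤ x ^ h`, and for all `d ≤ (log x) ^ C` at the same time, the true sum over `n ≤ x` of such a
combination along `f(n) = [n ^ h / d] + c` (`n ^ h + c` if `d = 1`) does not see the parity of the number of prime factors of `f(n)`.
The combination may contain

* any bounded functions `b(n)` (whatever is known on `n`, for instance that it is prime or belongs to a
  thin set),
* any sieve weights, which do not depend on `c` (as those of Brun, of the linear sieve, of Richert), of level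
  `x ^ h exp (-(log x) ^ δ)`, so nearly of the size of the values, though `n` runs up to `x` only, and
* arbitrary bounded coefficients of the sieve functions, which may depend on `c`.

So no argument of this kind gives prime values for all these `c`, nor an upper bound for
their number which is better than twice the truth. The first part is about all the sequences of integers near
to the values `g(n) / d` of a polynomial of any degree.

Idea of the proof. By the bound of Davenport the exponential sums over `λ` times a sieve function are small at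
all frequencies. The exponential sum over the polynomial values is large at few frequencies only, as
the additive energy of a sufficiently large order of the values of a polynomial, so also of numbers near to
it, is minimal up to powers of the logarithm. This gives the mean value over `c` of the
absolute value of the sum over `n`.
-/

namespace Pool.Agent.Results.MP_10deed_nt.AnyDegreeParityBarrier

open Finset Polynomial
open Pool.Agent.U325.PH (Near comb)
open Pool.Agent.U325.PA (IsSieve)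
open ArithmeticFunction (cardFactors)

/-- The combination `F` does not see the parity of the numbers of prime factors of `f(1), ..., f(x)`, up to
the error `B`: (0) the sum of `(-1) ^ Ω(f(n)) F(n)` is at most `B` in absolute value; (1) if `F(n) ≤ 0` whenever
`Ω(f(n))` is even, then the sum of `F(n)` is at most `B`; (2) if `F ≥ 0`, and `F(n) ≥ 1` if `f(n)` is prime, then the
sum of `F(n)` is at least twice the number of prime values, minus `B`. -/
def Barrier (x : ℕ) (B : ℝ) (f : ℕ → ℕ) (F : ℕ → ℝ) : Prop :=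
  |∑ n ∈ Icc 1 x, (-1 : ℝ) ^ cardFactors (f n) * F n| ≤ B ∧
  ((∀ n ∈ Icc 1 x, Even (cardFactors (f n)) → F n ≤ 0) → ∑ n ∈ Icc 1 x, F n ≤ B) ∧
  ((∀ n ∈ Icc 1 x, 0 ≤ F n) → (∀ n ∈ Icc 1 x, (f n).Prime → 1 ≤ F n) →
    2 * (((Icc 1 x).filter fun n => (f n).Prime).card : ℝ) - B ≤ ∑ n ∈ Icc 1 x, F n)

lemma barrier_of (x : ℕ) (B : ℝ) (f : ℕ → ℕ) (F : ℕ → ℝ)
    (h0 : |∑ n ∈ Icc 1 x, (-1 : ℝ) ^ cardFactors (f n) * F n| ≤ B) : Barrier x B f F := by
  obtain ⟨hlow, hup⟩ := abs_le.1 h0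
  refine ⟨h0, fun h1 => ?_, fun h1 h2 => ?_⟩
  · have h3 : ∑ n ∈ Icc 1 x, F n ≤ -∑ n ∈ Icc 1 x, (-1 : ℝ) ^ cardFactors (f n) * F n := by
      rw [← sum_neg_distrib]
      refine sum_le_sum fun n hn => ?_
      rcases Nat.even_or_odd (cardFactors (f n)) with he | ho
      · rw [he.neg_one_pow]
        have := h1 n hn he
        linarith
      · rw [ho.neg_one_pow]
        linarith
    linarith
  · have h3 : 2 * (((Icc 1 x).filter fun n => (f n).Prime).card : ℝ) ≤
        ∑ n ∈ Icc 1 x, (F n - (-1 : ℝ) ^ cardFactors (f n) * F n) := by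
      have e1 : 2 * (((Icc 1 x).filter fun n => (f n).Prime).card : ℝ) =
          ∑ n ∈ Icc 1 x, if (f n).Prime then (2 : ℝ) else 0 := by
        rw [← sum_filter, sum_const, nsmul_eq_mul]
        ring
      rw [e1]
      refine sum_le_sum fun n hn => ?_
      have hF := h1 n hn
      by_cases hp : (f n).Prime
      · rw [if_pos hp]
        have hF1 := h2 n hn hp
        rw [ArithmeticFunction.cardFactors_apply_prime hp]
        norm_num
        linarith
      · rw [if_neg hp]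
        rcases neg_one_pow_eq_or ℝ (cardFactors (f n)) with h4 | h4 <;> rw [h4] <;> linarith
    rw [sum_sub_distrib] at h3
    linarith

theorem general (g : ℤ[X]) (hg : 1 ≤ g.natDegree) (hl : 0 < g.leadingCoeff) (A C : ℕ) (δ : ℝ) (hδ : 0 < δ) :
    ∃ x₀ : ℕ, ∀ x : ℕ, x₀ ≤ x → ∀ (K : ℕ) (s : ℕ → ℕ → ℕ) (b σ : ℕ → Fin K → ℕ → ℝ),
      (K : ℝ) ≤ Real.log x ^ C →
      (∀ d : ℕ, 1 ≤ d → (d : ℝ) ≤ Real.log x ^ C → Near C g x d (s d)) →
      (∀ d k n, |b d k n| ≤ 1) → (∀ d k, IsSieve C δ x ((x : ℝ) ^ g.natDegree) (σ d k)) →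
    ∃ E : Finset ℕ, (E.card : ℝ) ≤ (x : ℝ) ^ g.natDegree / Real.log x ^ A ∧
      ∀ c : ℕ, 1 ≤ c → c ≤ x ^ g.natDegree → c ∉ E → ∀ d : ℕ, 1 ≤ d → (d : ℝ) ≤ Real.log x ^ C →
      ∀ t : Fin K → ℝ, (∀ k, |t k| ≤ Real.log x ^ C) →
      Barrier x (x / Real.log x ^ A) (fun n => s d n + c) (fun n => comb (b d) (σ d) t n (s d n + c)) := by
  classical
  obtain ⟨x₁, hx₁⟩ := Pool.Agent.U325.PH.few g hg hl (A + C) C δ hδ
  refine ⟨max x₁ 3, fun x hx K s b σ hK hs hb hσ => ?_⟩
  have hx3 : 3 ≤ x := (le_max_right _ _).trans hx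
  have hmain := hx₁ x ((le_max_left _ _).trans hx) K
  have hx3r : (3 : ℝ) ≤ x := by exact_mod_cast hx3
  have hL1 : 1 ≤ Real.log x := by
    rw [← Real.log_exp 1]
    refine Real.log_le_log (Real.exp_pos _) ?_
    have := Real.exp_one_lt_d9
    linarith
  set L := Real.log x with hL
  have hL0 : 0 < L := by linarith
  set D : ℕ := ⌊L ^ C⌋₊ with hD
  have hDr : (D : ℝ) ≤ L ^ C := Nat.floor_le (by positivity)
  have hdD : ∀ d ∈ Icc 1 D, (d : ℝ) ≤ L ^ C := by
    intro d hd
    have : (d : ℝ) ≤ D := by exact_mod_cast (mem_Icc.1 hd).2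
    exact this.trans hDr
  have hex : ∀ d : ℕ, ∃ E : Finset ℕ, d ∈ Icc 1 D → ((E.card : ℝ) ≤ (x : ℝ) ^ g.natDegree / L ^ (A + C) ∧
      ∀ c ∈ Icc 1 (x ^ g.natDegree), c ∉ E → ∀ t : Fin K → ℝ, (∀ k, |t k| ≤ L ^ C) →
      |∑ m ∈ Icc 1 x, Pool.Agent.U325.PB.lam (s d m + c) * comb (b d) (σ d) t m (s d m + c)| ≤ x / L ^ (A + C)) := by
    intro d
    by_cases hd : d ∈ Icc 1 D
    · obtain ⟨E, hE⟩ := hmain d (s d) (b d) (σ d) hK (hs d (mem_Icc.1 hd).1 (hdD d hd)) (hb d) (hσ d)
      exact ⟨E, fun _ => hE⟩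
    · exact ⟨∅, fun h => absurd h hd⟩
  choose E hE using hex
  refine ⟨(Icc 1 D).biUnion E, ?_, fun c hc1 hcx hcE d hd1 hdL t ht => ?_⟩
  · have h1 : (((Icc 1 D).biUnion E).card : ℝ) ≤ ∑ d ∈ Icc 1 D, ((E d).card : ℝ) := by
      exact_mod_cast card_biUnion_le
    refine h1.trans ?_
    calc ∑ d ∈ Icc 1 D, ((E d).card : ℝ) ≤ ∑ _d ∈ Icc 1 D, (x : ℝ) ^ g.natDegree / L ^ (A + C) :=
          sum_le_sum fun d hd => (hE d hd).1
      _ = D * ((x : ℝ) ^ g.natDegree / L ^ (A + C)) := by rw [sum_const, Nat.card_Icc, nsmul_eq_mul]; simp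
      _ ≤ L ^ C * ((x : ℝ) ^ g.natDegree / L ^ (A + C)) := mul_le_mul_of_nonneg_right hDr (by positivity)
      _ = (x : ℝ) ^ g.natDegree / L ^ A := by
          rw [pow_add]
          field_simp
  · have hdI : d ∈ Icc 1 D := mem_Icc.2 ⟨hd1, Nat.le_floor hdL⟩
    have hcd : c ∉ E d := fun h => hcE (mem_biUnion.2 ⟨d, hdI, h⟩)
    have h2 := (hE d hdI).2 c (mem_Icc.2 ⟨hc1, hcx⟩) hcd t ht
    apply barrier_of
    refine le_trans ?_ (h2.trans ?_)
    · exact le_rfl
    · exact div_le_div_of_nonneg_left (by positivity) (by positivity) (pow_le_pow_right₀ hL1 (by omega))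

/-- Let `L = log x`, let `A`, `C` be natural numbers and `δ > 0`.
(I) Let `g` be a polynomial with integer coefficients, positive leading coefficient and degree `h ≥ 1`. For all
large `x`, all `K ≤ L ^ C`, all families of sequences `s_d(n)` of natural numbers (`d ≤ L ^ C`, `n ≤ x`) with
`|d s_d(n) - g(n)| ≤ L ^ C`, all functions `b_(d,k)(n)` with values in `[-1, 1]` and all sieve weights `σ_(d,k)` of
level `x ^ h exp (-L ^ δ)` (`k ≤ K`), all integers `1 ≤ c ≤ x ^ h` but at most `x ^ h / L ^ A` have the following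
property for ALL `1 ≤ d ≤ L ^ C` and ALL real numbers `t_k`, `|t_k| ≤ L ^ C`. Let `f(n) = s_d(n) + c` and let `F(n)` be
the sum over `k` of `t_k b_(d,k)(n)` times the sum of `σ_(d,k)(e)` over the divisors `e` of `f(n)`. Then
(0) the sum of `(-1) ^ Ω(f(n)) F(n)` over `n ≤ x` is at most `x / L ^ A` in absolute value;
(1) if `F(n) ≤ 0` for all `n ≤ x` with `Ω(f(n))` even, then the sum of `F(n)` over `n ≤ x` is at most `x / L ^ A`;
(2) if `F(n) ≥ 0` for all `n ≤ x`, and `F(n) ≥ 1` if `f(n)` is prime, then the sum of `F(n)` is at least twice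
the number of the `n ≤ x` for which `f(n)` is prime, minus `x / L ^ A`.
(II) For every `h ≥ 1` this holds for `s_d(n) = [n ^ h / d]` (the division of natural numbers), so for
`f(n) = [n ^ h / d] + c`; this is `n ^ h + c` for `d = 1`. -/
theorem result :
    (∀ g : ℤ[X], 1 ≤ g.natDegree → 0 < g.leadingCoeff → ∀ (A C : ℕ) (δ : ℝ), 0 < δ →
    ∃ x₀ : ℕ, ∀ x : ℕ, x₀ ≤ x → ∀ (K : ℕ) (s : ℕ → ℕ → ℕ) (b σ : ℕ → Fin K → ℕ → ℝ),
      (K : ℝ) ≤ Real.log x ^ C →
      (∀ d : ℕ, 1 ≤ d → (d : ℝ) ≤ Real.log x ^ C → Near C g x d (s d)) →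
      (∀ d k n, |b d k n| ≤ 1) → (∀ d k, IsSieve C δ x ((x : ℝ) ^ g.natDegree) (σ d k)) →
    ∃ E : Finset ℕ, (E.card : ℝ) ≤ (x : ℝ) ^ g.natDegree / Real.log x ^ A ∧
      ∀ c : ℕ, 1 ≤ c → c ≤ x ^ g.natDegree → c ∉ E → ∀ d : ℕ, 1 ≤ d → (d : ℝ) ≤ Real.log x ^ C →
      ∀ t : Fin K → ℝ, (∀ k, |t k| ≤ Real.log x ^ C) →
      Barrier x (x / Real.log x ^ A) (fun n => s d n + c) (fun n => comb (b d) (σ d) t n (s d n + c))) ∧
    (∀ h : ℕ, 1 ≤ h → ∀ (A C : ℕ) (δ : ℝ), 0 < δ →
    ∃ x₀ : ℕ, ∀ x : ℕ, x₀ ≤ x → ∀ (K : ℕ) (b σ : ℕ → Fin K → ℕ → ℝ), (K : ℝ) ≤ Real.log x ^ C →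
      (∀ d k n, |b d k n| ≤ 1) → (∀ d k, IsSieve C δ x ((x : ℝ) ^ h) (σ d k)) →
    ∃ E : Finset ℕ, (E.card : ℝ) ≤ (x : ℝ) ^ h / Real.log x ^ A ∧
      ∀ c : ℕ, 1 ≤ c → c ≤ x ^ h → c ∉ E → ∀ d : ℕ, 1 ≤ d → (d : ℝ) ≤ Real.log x ^ C →
      ∀ t : Fin K → ℝ, (∀ k, |t k| ≤ Real.log x ^ C) →
      Barrier x (x / Real.log x ^ A) (fun n => n ^ h / d + c) (fun n => comb (b d) (σ d) t n (n ^ h / d + c))) := by
  refine ⟨fun g hg hl A C δ hδ => general g hg hl A C δ hδ, fun h hh A C δ hδ => ?_⟩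
  have hdeg : (X ^ h : ℤ[X]).natDegree = h := natDegree_X_pow h
  obtain ⟨x₀, hx₀⟩ := general (X ^ h) (by rw [hdeg]; exact hh) (by rw [(monic_X_pow h).leadingCoeff]; norm_num) A C δ hδ
  rw [hdeg] at hx₀
  refine ⟨x₀, fun x hx K b σ hK hb hσ => ?_⟩
  refine hx₀ x hx K (fun d n => n ^ h / d) b σ hK (fun d hd1 hdL => ⟨hd1, fun n _ => ?_⟩) hb hσ
  have h1 : ((X ^ h : ℤ[X]).eval (n : ℤ) : ℤ) = ((n ^ h : ℕ) : ℤ) := by
    rw [eval_pow, eval_X]
    push_cast
    ring
  rw [h1]
  have h2 : d * (n ^ h / d) + n ^ h % d = n ^ h := Nat.div_add_mod _ _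
  have h3 : n ^ h % d < d := Nat.mod_lt _ hd1
  have h4 : (d : ℝ) * ((n ^ h / d : ℕ) : ℝ) + ((n ^ h % d : ℕ) : ℝ) = ((n ^ h : ℕ) : ℝ) := by exact_mod_cast h2
  have h5 : ((n ^ h % d : ℕ) : ℝ) ≤ d := by exact_mod_cast h3.le
  have h6 : (0 : ℝ) ≤ ((n ^ h % d : ℕ) : ℝ) := Nat.cast_nonneg _
  rw [Int.cast_natCast, abs_le]
  constructor <;> linarith

end Pool.Agent.Results.MP_10deed_nt.AnyDegreeParityBarrier
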